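import Pool.Agent.Helper79.GL4.GoalsA

/-!
# GL4: ANT (MP_27a5f8_al, packet of helper79)
-/

set_option linter.unusedVariables false

namespace GL4.H13

open Module Submodule

variable {F : Type} [Field F] [Finite F] {V : Type} [AddCommGroup V] [Module F V]
    [FiniteDimensional F V]

theorem card_eq_pow : ∃ e, 1 ≤ e ∧ Nat.card F = ringChar F ^ e := by
  haveI : Fintype F := Fintype.ofFinite F
  obtain ⟨n, hp, hn⟩ := FiniteField.card F (ringChar F)
  exact ⟨n, n.2, by rw [Nat.card_eq_fintype_card, hn]⟩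

theorem prime_char : (ringChar F).Prime := by
  haveI : Fintype F := Fintype.ofFinite F
  obtain ⟨n, hp, hn⟩ := FiniteField.card F (ringChar F)
  exact hp

/-- number of points outside a hyperplane -/
theorem ncard_pts_out {H : Submodule F V} (hH : Hy H) :
    Set.ncard {x : Submodule F V | Pt x ∧ ¬ x ≤ H} = Nat.card F ^ (finrank F V - 1) := by
  have h1 : Set.ncard {x : Submodule F V | Pt x} = br (Nat.card F) (finrank F V) := by
    rw [← Nat.card_coe_set_eq]; exact card_pts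
  have h2 : Set.ncard {x : Submodule F V | Pt x ∧ x ≤ H} = br (Nat.card F) (finrank F H) := by
    rw [← Nat.card_coe_set_eq]; exact card_pts_le H
  have h3 : {x : Submodule F V | Pt x ∧ ¬ x ≤ H} =
      {x : Submodule F V | Pt x} \ {x : Submodule F V | Pt x ∧ x ≤ H} := by
    ext x
    simp only [Set.mem_ofPred_eq, Set.mem_diff]
    tauto
  have h4 : {x : Submodule F V | Pt x ∧ x ≤ H} ⊆ {x : Submodule F V | Pt x} := fun x hx => hx.1
  rw [h3, Set.ncard_diff h4 (Set.toFinite _), h1, h2]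
  have h5 : finrank F V = finrank F H + 1 := hH.symm
  rw [h5, br_succ]
  simp

/-- number of hyperplanes not through a point -/
theorem ncard_hys_out {P : Submodule F V} (hP : Pt P) :
    Set.ncard {H : Submodule F V | Hy H ∧ ¬ P ≤ H} = Nat.card F ^ (finrank F V - 1) := by
  have h1 : Set.ncard {H : Submodule F V | Hy H} = br (Nat.card F) (finrank F V) := by
    have h := card_hys_ge (F := F) (V := V) ⊥
    rw [finrank_bot, Nat.sub_zero] at h
    rw [← h, ← Nat.card_coe_set_eq]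
    refine Nat.card_congr (Equiv.subtypeEquivRight fun H => ?_)
    simp
  have h2 : Set.ncard {H : Submodule F V | Hy H ∧ P ≤ H} = br (Nat.card F) (finrank F V - 1) := by
    have h := card_hys_ge (F := F) (V := V) P
    rw [hP] at h
    rw [← h, ← Nat.card_coe_set_eq]; rfl
  have h3 : {H : Submodule F V | Hy H ∧ ¬ P ≤ H} =
      {H : Submodule F V | Hy H} \ {H : Submodule F V | Hy H ∧ P ≤ H} := by
    ext x
    simp only [Set.mem_ofPred_eq, Set.mem_diff]
    tauto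
  have h4 : {H : Submodule F V | Hy H ∧ P ≤ H} ⊆ {H : Submodule F V | Hy H} := fun x hx => hx.1
  rw [h3, Set.ncard_diff h4 (Set.toFinite _), h1, h2]
  have h6 : 1 ≤ finrank F V := by
    have := Submodule.finrank_le P
    rw [Pt] at hP
    omega
  obtain ⟨m, hm⟩ : ∃ m, finrank F V = m + 1 := ⟨finrank F V - 1, by omega⟩
  rw [hm, br_succ]
  simp

theorem not_dvd_br {k : ℕ} (hk : 1 ≤ k) : ¬ ringChar F ∣ br (Nat.card F) k := by
  obtain ⟨j, rfl⟩ : ∃ j, k = j + 1 := ⟨k - 1, by omega⟩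
  obtain ⟨e, he, hq⟩ := card_eq_pow (F := F)
  intro h
  rw [br_succ'] at h
  have h1 : ringChar F ∣ Nat.card F * br (Nat.card F) j := by
    apply Dvd.dvd.mul_right
    rw [hq]
    exact dvd_pow_self _ (by omega)
  have h2 := (Nat.dvd_add_right h1).1 h
  exact prime_char.one_lt.ne' (Nat.dvd_one.1 h2)

attribute [local instance] GL4.subAct

omit [Finite F] [FiniteDimensional F V] in
theorem mem_stab {g : V ≃ₗ[F] V} {P : Submodule F V} :
    g ∈ MulAction.stabilizer (V ≃ₗ[F] V) P ↔ im g P = P := Iff.rfl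

/-- (1): `K_{P,H}` is transitive on the points outside `H`. -/
theorem trans_pts {K : Subgroup (V ≃ₗ[F] V)} (h2 : 2 ≤ finrank F V) (hF : FlagPH K)
    (hA : AntiTrans K) {P H : Submodule F V} (hP : Pt P) (hH : Hy H) (hPH : P ≤ H)
    {x y : Submodule F V} (hx : Pt x) (hy : Pt y) (hxH : ¬ x ≤ H) (hyH : ¬ y ≤ H) :
    ∃ g ∈ K, im g P = P ∧ im g H = H ∧ im g x = y := by
  haveI : Fact (ringChar F).Prime := ⟨prime_char⟩
  obtain ⟨e, he, hq⟩ := card_eq_pow (F := F)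
  set G : Subgroup (V ≃ₗ[F] V) := K ⊓ MulAction.stabilizer (V ≃ₗ[F] V) H with hG
  set R : Subgroup (V ≃ₗ[F] V) := G ⊓ MulAction.stabilizer (V ≃ₗ[F] V) P with hR
  have horb : Set.ncard {y | ∃ g ∈ G, g • P = y} = br (Nat.card F) (finrank F H) := by
    rw [← card_pts_le H]
    have : {y | ∃ g ∈ G, g • P = y} = {x : Submodule F V | Pt x ∧ x ≤ H} := by
      ext y
      constructor
      · rintro ⟨g, ⟨hg1, hg2⟩, rfl⟩
        refine ⟨Pt.im hP, ?_⟩
        have := im_mono g hPH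
        rw [mem_stab.1 hg2] at this
        exact this
      · rintro ⟨h1, h2⟩
        obtain ⟨g, hg, h3, h4⟩ := hF P H y H hP hH h1 hH hPH h2
        exact ⟨g, ⟨hg, h4⟩, h3⟩
    rw [this, ← Nat.card_coe_set_eq]
    rfl
  have hd : ¬ ringChar F ∣ R.relIndex G := by
    rw [hR, ← ncard_orbit, horb]
    apply not_dvd_br
    rw [Hy] at hH
    omega
  have key := trans_of_pow (p := ringChar F) (R := R) (G := G) inf_le_left hd
    (X := {x : Submodule F V | Pt x ∧ ¬ x ≤ H}) (Set.toFinite _) ?_ ?_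
    (a := e * (finrank F V - 1)) (by rw [ncard_pts_out hH, hq, pow_mul]) x ⟨hx, hxH⟩ y ⟨hy, hyH⟩
  · obtain ⟨g, ⟨⟨hg1, hg2⟩, hg3⟩, hg4⟩ := key
    exact ⟨g, hg1, hg3, hg2, hg4⟩
  · rintro g ⟨hg1, hg2⟩ x ⟨hx1, hx2⟩
    refine ⟨Pt.im hx1, fun h => hx2 ?_⟩
    change im g x ≤ H at h
    rw [← mem_stab.1 hg2, im_le_im_iff] at h
    exact h
  · rintro x ⟨hx1, hx2⟩ y ⟨hy1, hy2⟩
    obtain ⟨g, hg, h3, h4⟩ := hA x H y H hx1 hH hy1 hH hx2 hy2
    exact ⟨g, ⟨hg, h4⟩, h3⟩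

/-- (2): `K_{P,H}` is transitive on the hyperplanes not through `P`. -/
theorem trans_hys {K : Subgroup (V ≃ₗ[F] V)} (h2 : 2 ≤ finrank F V) (hF : FlagPH K)
    (hA : AntiTrans K) {P H : Submodule F V} (hP : Pt P) (hH : Hy H) (hPH : P ≤ H)
    {M N : Submodule F V} (hM : Hy M) (hN : Hy N) (hPM : ¬ P ≤ M) (hPN : ¬ P ≤ N) :
    ∃ g ∈ K, im g P = P ∧ im g H = H ∧ im g M = N := by
  haveI : Fact (ringChar F).Prime := ⟨prime_char⟩
  obtain ⟨e, he, hq⟩ := card_eq_pow (F := F)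
  set G : Subgroup (V ≃ₗ[F] V) := K ⊓ MulAction.stabilizer (V ≃ₗ[F] V) P with hG
  set R : Subgroup (V ≃ₗ[F] V) := G ⊓ MulAction.stabilizer (V ≃ₗ[F] V) H with hR
  have horb : Set.ncard {y | ∃ g ∈ G, g • H = y} = br (Nat.card F) (finrank F V - 1) := by
    have h0 := card_hys_ge (F := F) (V := V) P
    rw [hP] at h0
    rw [← h0]
    have : {y | ∃ g ∈ G, g • H = y} = {x : Submodule F V | Hy x ∧ P ≤ x} := by
      ext y
      constructor
      · rintro ⟨g, ⟨hg1, hg2⟩, rfl⟩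
        refine ⟨Hy.im hH, ?_⟩
        have := im_mono g hPH
        rw [mem_stab.1 hg2] at this
        exact this
      · rintro ⟨h1, h2⟩
        obtain ⟨g, hg, h3, h4⟩ := hF P H P y hP hH hP h1 hPH h2
        exact ⟨g, ⟨hg, h3⟩, h4⟩
    rw [this, ← Nat.card_coe_set_eq]
    rfl
  have hd : ¬ ringChar F ∣ R.relIndex G := by
    rw [hR, ← ncard_orbit, horb]
    apply not_dvd_br
    omega
  have key := trans_of_pow (p := ringChar F) (R := R) (G := G) inf_le_left hd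
    (X := {x : Submodule F V | Hy x ∧ ¬ P ≤ x}) (Set.toFinite _) ?_ ?_
    (a := e * (finrank F V - 1)) (by rw [ncard_hys_out hP, hq, pow_mul]) M ⟨hM, hPM⟩ N ⟨hN, hPN⟩
  · obtain ⟨g, ⟨⟨hg1, hg2⟩, hg3⟩, hg4⟩ := key
    exact ⟨g, hg1, hg2, hg3, hg4⟩
  · rintro g ⟨hg1, hg2⟩ x ⟨hx1, hx2⟩
    refine ⟨Hy.im hx1, fun h => hx2 ?_⟩
    change P ≤ im g x at h
    rw [← mem_stab.1 hg2, im_le_im_iff] at h
    exact h
  · rintro x ⟨hx1, hx2⟩ y ⟨hy1, hy2⟩
    obtain ⟨g, hg, h3, h4⟩ := hA P x P y hP hx1 hP hy1 hx2 hy2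
    exact ⟨g, ⟨hg, h3⟩, h4⟩

omit [Finite F] in
/-- a point of the line `up x'` other than `P` -/
theorem exists_pt_up {P : Submodule F V} (hP : Pt P) {x' : Submodule F (V ⧸ P)} (hx : Pt x') :
    ∃ y, Pt y ∧ y ≤ x'.comap P.mkQ ∧ y ≠ P ∧ P ⊔ y = x'.comap P.mkQ := by
  have hL : Ln (x'.comap P.mkQ) := Pt.up hx hP
  have hn : ¬ x'.comap P.mkQ ≤ P := by
    intro h
    have := Submodule.finrank_mono h
    rw [Ln] at hL
    rw [Pt] at hP
    omega
  obtain ⟨y, hy, hy1, hy2⟩ := exists_pt_not_le hn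
  have hne : y ≠ P := by rintro rfl; exact hy2 le_rfl
  refine ⟨y, hy, hy1, hne, ?_⟩
  apply Submodule.eq_of_le_of_finrank_eq
  · exact sup_le (le_up _) hy1
  · rw [finrank_sup_pt hy hy2, hP]
    exact hL.symm

theorem ant (hBR2 : BR2) : ANT := by
  intro F _ _ V _ _ _ K h3 hK
  obtain ⟨-, hF, hA⟩ := hBR2 F V K (by omega) hK
  have h2 : 2 ≤ finrank F V := by omega
  refine ⟨?_, ?_⟩
  · intro P hP x H' x2 H2' hx hH' hx2 hH2' hxH hxH2
    have hH : Hy (H'.comap P.mkQ) := Hy.up hH'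
    have hH2 : Hy (H2'.comap P.mkQ) := Hy.up hH2'
    obtain ⟨y, hy, hyx, hyP, hyL⟩ := exists_pt_up hP hx
    obtain ⟨y2, hy2, hyx2, hyP2, hyL2⟩ := exists_pt_up hP hx2
    have hyH : ¬ y ≤ H'.comap P.mkQ := by
      intro h
      apply hxH
      rw [← up_le_up, ← hyL]
      exact sup_le (le_up _) h
    have hyH2 : ¬ y2 ≤ H2'.comap P.mkQ := by
      intro h
      apply hxH2
      rw [← up_le_up, ← hyL2]
      exact sup_le (le_up _) h
    obtain ⟨k1, hk1, hk1P, hk1H⟩ := hF P _ P _ hP hH hP hH2 (le_up _) (le_up _)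
    have hk1y : ¬ im k1 y ≤ H2'.comap P.mkQ := by
      rw [← hk1H, im_le_im_iff]; exact hyH
    obtain ⟨k2, hk2, hk2P, hk2H, hk2y⟩ :=
      trans_pts h2 hF hA hP hH2 (le_up _) (Pt.im hy) hy2 hk1y hyH2
    have hkP : im (k2 * k1) P = P := by rw [im_mul, hk1P, hk2P]
    obtain ⟨g, hg, hgv⟩ := exists_qGrp (K.mul_mem hk2 hk1) hkP
    refine ⟨g, hg, ?_, ?_⟩
    · rw [← down_up (im g x), im_up hkP hgv, ← hyL, im_sup, hkP, im_mul, hk2y, hyL2, down_up]
    · rw [← down_up (im g H'), im_up hkP hgv, im_mul, hk1H, hk2H, down_up]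
  · intro H hH y' Y' y2' Y2' hy hY hy2 hY2 hyY hyY2
    -- transfer to V
    have key : ∀ (y' Y' : Submodule F H), Pt y' → Hy Y' → ¬ y' ≤ Y' →
        ∃ M : Submodule F V, Hy M ∧ M ⊓ H = Y'.map H.subtype ∧ ¬ y'.map H.subtype ≤ M := by
      intro y' Y' hy hY hyY
      have h1 : ¬ y'.map H.subtype ≤ Y'.map H.subtype := by rwa [incl_le_incl]
      obtain ⟨M, hM, hYM, hyM⟩ := exists_hy_not_ge h1
      refine ⟨M, hM, ?_, hyM⟩
      have hHM : ¬ H ≤ M := fun h => hyM ((incl_le _).trans h)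
      have h5 := finrank_inf_hy hM hHM
      have h6 : Y'.map H.subtype ≤ M ⊓ H := le_inf hYM (incl_le _)
      refine (Submodule.eq_of_le_of_finrank_eq h6 ?_).symm
      rw [finrank_incl, inf_comm]
      rw [Hy] at hY
      omega
    obtain ⟨M, hM, hMY, hyM⟩ := key y' Y' hy hY hyY
    obtain ⟨M2, hM2, hMY2, hyM2⟩ := key y2' Y2' hy2 hY2 hyY2
    have hyy : Pt (y'.map H.subtype) := by rw [Pt, finrank_incl]; exact hy
    have hyy2 : Pt (y2'.map H.subtype) := by rw [Pt, finrank_incl]; exact hy2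
    obtain ⟨k1, hk1, hk1y, hk1H⟩ := hF _ H _ H hyy hH hyy2 hH (incl_le _) (incl_le _)
    have hk1M : ¬ y2'.map H.subtype ≤ im k1 M := by
      rw [← hk1y, im_le_im_iff]; exact hyM
    obtain ⟨k2, hk2, hk2y, hk2H, hk2M⟩ :=
      trans_hys h2 hF hA hyy2 hH (incl_le _) (Hy.im hM) hM2 hk1M hyM2
    have hkH : im (k2 * k1) H = H := by rw [im_mul, hk1H, hk2H]
    obtain ⟨g, hg, hgv⟩ := exists_sGrp (K.mul_mem hk2 hk1) hkH
    refine ⟨g, hg, ?_, ?_⟩
    · rw [← restr_incl (im g y'), im_incl hgv, im_mul, hk1y, hk2y, restr_incl]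
    · rw [← restr_incl (im g Y'), im_incl hgv, ← hMY, im_inf, hkH, im_mul, hk2M, hMY2, restr_incl]

end GL4.H13
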