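import Pool.Agent.Helper79.GL4.GoalsB

/-!
# GL4: PGF (MP_27a5f8_al, packet of helper79)
-/

set_option linter.unusedVariables false

namespace GL4.H13

open Module Submodule

theorem pgf : PGF := by
  intro F _ _ W _ _ _ G B C N L hWS hm hNB hCL hBB hEU hns
  have bc := hWS.bc
  have nn := hWS.nn
  -- the hyperplane of a special pair
  have key : ∀ x y, Pt x → Pt y → y ≤ N x → y ≠ x →
      ∃ H, Hy H ∧ B x ≤ H ∧ C H = x ⊔ y ∧ B x ⊔ B y = H := by
    intro x y hx hy hyN hyx
    obtain ⟨H, ⟨hH, hBH, hCH⟩, -⟩ := hEU x (x ⊔ y) hx le_sup_left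
      (sup_le (nn.selfN x hx) hyN) (ln_sup hx hy (Ne.symm hyx))
    refine ⟨H, hH, hBH, hCH, ?_⟩
    have h1 : B y ≤ H := (bc.adj y H hy hH).1 (by rw [hCH]; exact le_sup_right)
    apply Submodule.eq_of_le_of_finrank_eq (sup_le hBH h1)
    have h2 := hBB x y hx hy hyN hyx
    rw [Hy] at hH
    omega
  refine
    { dimB := fun x hx => bc.dimB x hx
      dimN := fun x hx => nn.dimN x hx
      selfN := nn.selfN
      NB := hNB
      symB := bc.symB
      symN := nn.symN
      supB := ?_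
      sNB := ?_
      ne := ?_
      linB := ?_
      injH := ?_ }
  · intro x y hx hy hyN hyx
    have := hBB x y hx hy hyN hyx
    omega
  · intro x y hx hy hNx
    apply le_of_pts
    intro z hz hzN
    apply bc.symB z x hz hx
    by_cases hzy : z = y
    · rw [hzy]; exact (nn.selfN x hx).trans hNx
    · obtain ⟨H, hH, hBH, hCH, -⟩ := key y z hy hz hzN hzy
      have h1 : x ≤ L H := (hWS.adjN x H hx hH).2 (hNx.trans hBH)
      exact h1.trans (hCL z H hz hH (by rw [hCH]; exact le_sup_right)).1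
  · intro x y hx hy hyN hyx hne
    apply hns
    intro x0 y0 hx0 hy0 hy0N
    by_cases h0 : y0 = x0
    · rw [h0]
    obtain ⟨g, hg, hgx⟩ := bc.ptT x x0 hx hx0
    have h1 : im g y ≤ N x0 := by
      rw [← hgx, nn.eqN g hg x hx]; exact im_mono g hyN
    have h2 : im g y ≠ x0 := by
      rw [← hgx]; intro h; exact hyx ((im_inj g).1 h)
    obtain ⟨g', hg', hgx', hgy'⟩ := nn.trN x0 (im g y) y0 hx0 (Pt.im hy) hy0 h1 hy0N h2 h0
    rw [← hgy', nn.eqN g' hg' _ (Pt.im hy), nn.eqN g hg y hy, hne, ← nn.eqN g hg x hx, hgx,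
      ← nn.eqN g' hg' x0 hx0, hgx']
  · intro x y z hx hy hz hyN hyx hzxy
    obtain ⟨H, hH, hBH, hCH, hE⟩ := key x y hx hy hyN hyx
    rw [hE]
    exact (bc.adj z H hz hH).1 (by rw [hCH]; exact hzxy)
  · intro x y z hx hy hz hyN hyx hzN hBz
    obtain ⟨H, hH, hBH, hCH, hE⟩ := key x y hx hy hyN hyx
    rw [hE] at hBz
    have := (bc.adj z H hz hH).2 hBz
    rwa [hCH] at this

end GL4.H13
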